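import Pool.Agent.MTO.Stmts
import Pool.Agent.Helper3_MTF.Spl

/-! MTO, module SPE: the case of an orthogonal decomposition, even weight.  Model: SPL, `Helper3_MTF/Spl.lean`. -/

set_option autoImplicit false

namespace Pool.Agent.MTO.H85

open Matrix Pool.Agent.MTF Pool.Agent.MTF.H3

section num

/-- the numerical part of SPE -/
theorem numer (nue : NueStmt) (w κ : ℕ) (x y : ℕ → ℕ)
    (hx : ∀ p ≤ w, x (w - p) = x p) (hy : ∀ p ≤ w, y (w - p) = y p)
    (hκ : ∀ p, x p + y p ≤ κ) (h1 : 1 ≤ ∑ p ∈ Finset.range (w + 1), x p)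
    (h2 : 1 ≤ ∑ p ∈ Finset.range (w + 1), y p) :
    ∑ p ∈ Finset.range (w + 1), x p + ∑ p ∈ Finset.range (w + 1), y p ≤
      2 * (∑ p ∈ Finset.range (w + 1), ∑ q ∈ Finset.range (w + 1),
        if p + q < w then x p * y q else 0) + κ := by
  have hnum := nue (Fin (w + 1)) (fun i => x i) (fun i => y i) κ (fun i => hκ _)
    (by rw [← Finset.sum_range (fun i => x i)]; exact h1)
    (by rw [← Finset.sum_range (fun i => y i)]; exact h2)
  rw [← Finset.sum_range (fun i => x i), ← Finset.sum_range (fun i => y i),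
    ← Finset.sum_range (fun i => x i * y i)] at hnum
  -- the sum over the square
  obtain ⟨F, hF⟩ : ∃ F, F = ∑ p ∈ Finset.range (w + 1), ∑ q ∈ Finset.range (w + 1),
        if p + q < w then x p * y q else 0 := ⟨_, rfl⟩
  have hsq : (∑ p ∈ Finset.range (w + 1), x p) * (∑ q ∈ Finset.range (w + 1), y q) =
      2 * F + ∑ p ∈ Finset.range (w + 1), x p * y p := by
    have e1 : (∑ p ∈ Finset.range (w + 1), x p) * (∑ q ∈ Finset.range (w + 1), y q) =
        ∑ p ∈ Finset.range (w + 1), ∑ q ∈ Finset.range (w + 1),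
          ((if p + q < w then x p * y q else 0) +
            (if w < p + q then x p * y q else 0) +
            if q = w - p then x p * y q else 0) := by
      rw [Finset.sum_mul_sum]
      refine Finset.sum_congr rfl fun p hp => Finset.sum_congr rfl fun q hq => ?_
      rw [Finset.mem_range] at hp hq
      rcases lt_trichotomy (p + q) w with h | h | h
      · rw [if_pos h, if_neg (by omega), if_neg (by omega)]
        ring
      · rw [if_neg (by omega), if_neg (by omega), if_pos (by omega)]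
        ring
      · rw [if_neg (by omega), if_pos h, if_neg (by omega)]
        ring
    have e2 : ∑ p ∈ Finset.range (w + 1), ∑ q ∈ Finset.range (w + 1),
          (if w < p + q then x p * y q else 0) = F := by
      rw [hF, ← Finset.sum_range_reflect (fun p => ∑ q ∈ Finset.range (w + 1),
        if w < p + q then x p * y q else 0) (w + 1)]
      refine Finset.sum_congr rfl fun p hp => ?_
      rw [Finset.mem_range] at hp
      rw [← Finset.sum_range_reflect (fun q =>
        if w < w + 1 - 1 - p + q then x (w + 1 - 1 - p) * y q else 0) (w + 1)]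
      refine Finset.sum_congr rfl fun q hq => ?_
      rw [Finset.mem_range] at hq
      have e3 : x (w + 1 - 1 - p) = x p := by
        rw [← hx p (by omega)]
        congr 1
      have e4 : y (w + 1 - 1 - q) = y q := by
        rw [← hy q (by omega)]
        congr 1
      rw [e3, e4]
      by_cases h : p + q < w
      · rw [if_pos (by omega), if_pos h]
      · rw [if_neg (by omega), if_neg h]
    have e3 : ∑ p ∈ Finset.range (w + 1), ∑ q ∈ Finset.range (w + 1),
          (if q = w - p then x p * y q else 0) =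
        ∑ p ∈ Finset.range (w + 1), x p * y p := by
      refine Finset.sum_congr rfl fun p hp => ?_
      rw [Finset.mem_range] at hp
      rw [Finset.sum_ite_eq', if_pos (by rw [Finset.mem_range]; omega), hy p (by omega)]
    rw [e1]
    simp only [Finset.sum_add_distrib]
    rw [e2, e3, ← hF]
    ring
  rw [← hF]
  rw [hsq] at hnum
  omega

end num

variable {d : Type} [Fintype d] [DecidableEq d]

theorem bf_symm (wed : WedStmt) {Ψ : Matrix d d ℂ} (h : Ψᵀ = Ψ) (x y : d → ℂ) :
    bf Ψ x y = bf Ψ y x := by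
  rw [bf_apply, bf_apply]
  exact (wed d Ψ h).2.2.2.2.2.2.2.2 x y

theorem wd_mem (wed : WedStmt) {Ψ : Matrix d d ℂ} (h : Ψᵀ = Ψ) (a b : d → ℂ) :
    wd Ψ a b ∈ sk Ψ := (wed d Ψ h).2.1 a b

theorem wd_mulVec (wed : WedStmt) {Ψ : Matrix d d ℂ} (h : Ψᵀ = Ψ) (a b x : d → ℂ) :
    wd Ψ a b *ᵥ x = bf Ψ b x • a - bf Ψ a x • b := by
  rw [bf_apply, bf_apply]
  exact (wed d Ψ h).1 a b x

theorem exists_pr {w : ℕ} {Ψ : Matrix d d ℂ} {V : ℕ → Submodule ℂ (d → ℂ)}
    {g : Submodule ℂ (Matrix d d ℂ)} (hL : HE w Ψ V g) : ∃ π, Pr V w π := by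
  choose π h1 h2 h3 using exists_proj hL.indep hL.span
  refine ⟨π, h1, h2, h3, fun x => ?_⟩
  have hx : x ∈ ⨆ p, V p := by
    rw [hL.span]
    trivial
  induction hx using Submodule.iSup_induction' with
  | mem p x hx =>
    by_cases hp : p ≤ w
    · rw [Finset.sum_eq_single p, h2 p x hx]
      · intro q _ hq
        exact h3 q p (Ne.symm hq) x hx
      · intro h
        exact absurd (Finset.mem_range.2 (by omega)) h
    · rw [hL.top p (by omega), Submodule.mem_bot] at hx
      rw [hx]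
      simp
  | zero => simp
  | add x y _ _ hx hy => simp only [map_add, Finset.sum_add_distrib, hx, hy]

section HE

variable {w : ℕ} {Ψ : Matrix d d ℂ} {V : ℕ → Submodule ℂ (d → ℂ)}
  {g : Submodule ℂ (Matrix d d ℂ)} {π : ℕ → (d → ℂ) →ₗ[ℂ] (d → ℂ)} {U U' : Submodule ℂ (d → ℂ)}

theorem stab_proj (hL : HE w Ψ V g) (hπ : Pr V w π) (hU : Stab g U) (x : d → ℂ) (hx : x ∈ U)
    (q : ℕ) : π q x ∈ U := by
  obtain ⟨H, hH, hH'⟩ := hL.hh
  by_cases hq : q ≤ w
  · refine graded_aux hH' (hU H hH) (Finset.range (w + 1)) (fun q => π q x)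
      (fun q _ => hπ.mem q x) ?_ q (Finset.mem_range.2 (by omega))
    rw [hπ.sum x]
    exact hx
  · have h1 := hπ.mem q x
    rw [hL.top q (by omega), Submodule.mem_bot] at h1
    rw [h1]
    exact U.zero_mem

/-- pairing with a summand -/
theorem bf_proj (hL : HE w Ψ V g) (hπ : Pr V w π) (x : d → ℂ) {p : ℕ} (hp : p ≤ w) {v : d → ℂ}
    (hv : v ∈ V (w - p)) : bf Ψ x v = bf Ψ (π p x) v := by
  conv_lhs => rw [← hπ.sum x]
  rw [map_sum, LinearMap.sum_apply, Finset.sum_eq_single p]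
  · intro q _ hq
    rw [bf_apply]
    exact hL.orth q (w - p) (by omega) _ (hπ.mem q x) _ hv
  · intro h
    exact absurd (Finset.mem_range.2 (by omega)) h

theorem nondeg (hL : HE w Ψ V g) (hπ : Pr V w π) (hU : Stab g U) (hU' : Stab g U')
    (hc : IsCompl U U') (ho : ∀ x ∈ U, ∀ y ∈ U', bf Ψ x y = 0) {p : ℕ} (hp : p ≤ w)
    {z : d → ℂ} (hz : z ∈ U) (hz' : z ∈ V p) (h : ∀ v ∈ U, v ∈ V (w - p) → bf Ψ z v = 0) :
    z = 0 := by
  by_contra hne
  obtain ⟨t, ht, ht'⟩ := hL.pos p hp z hz' hne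
  have h1 : star z ∈ V (w - p) := hL.conj p hp z hz'
  have h2 : star z ∈ U ⊔ U' := by
    rw [hc.sup_eq_top]
    trivial
  obtain ⟨a, ha, b, hb, hab⟩ := Submodule.mem_sup.1 h2
  have h3 : star z = π (w - p) a + π (w - p) b := by
    rw [← map_add, hab, hπ.id _ _ h1]
  have h4 : bf Ψ z (star z) = 0 := by
    rw [h3, map_add, h _ (stab_proj hL hπ hU a ha _) (hπ.mem _ _),
      ho z hz _ (stab_proj hL hπ hU' b hb _), add_zero]
  rw [← bf_apply, h4, mul_zero] at ht'
  have : t = 0 := by exact_mod_cast ht'.symm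
  linarith

theorem rank_le (hL : HE w Ψ V g) (hπ : Pr V w π) (hU : Stab g U) (hU' : Stab g U')
    (hc : IsCompl U U') (ho : ∀ x ∈ U, ∀ y ∈ U', bf Ψ x y = 0) {p : ℕ} (hp : p ≤ w) :
    Module.finrank ℂ ↥(U ⊓ V p) ≤ Module.finrank ℂ ↥(U ⊓ V (w - p)) := by
  obtain ⟨φ, hφ⟩ : ∃ φ : ↥(U ⊓ V p) →ₗ[ℂ] Module.Dual ℂ ↥(U ⊓ V (w - p)),
      ∀ z v, φ z v = bf Ψ z v :=
    ⟨(Submodule.dualRestrict (U ⊓ V (w - p))) ∘ₗ (bf Ψ) ∘ₗ (U ⊓ V p).subtype, fun z v => rfl⟩
  have hinj : Function.Injective φ := by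
    rw [injective_iff_map_eq_zero]
    intro z hz
    have h1 := nondeg hL hπ hU hU' hc ho hp (z := (z : d → ℂ)) z.2.1 z.2.2 (fun v hv hv' => by
      rw [← hφ z ⟨v, hv, hv'⟩, hz]
      rfl)
    exact Subtype.ext h1
  calc Module.finrank ℂ ↥(U ⊓ V p) ≤ Module.finrank ℂ (Module.Dual ℂ ↥(U ⊓ V (w - p))) :=
        LinearMap.finrank_le_finrank_of_injective hinj
    _ = _ := Subspace.dual_finrank_eq

theorem rank_eq (hL : HE w Ψ V g) (hπ : Pr V w π) (hU : Stab g U) (hU' : Stab g U')
    (hc : IsCompl U U') (ho : ∀ x ∈ U, ∀ y ∈ U', bf Ψ x y = 0) {p : ℕ} (hp : p ≤ w) :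
    Module.finrank ℂ ↥(U ⊓ V (w - p)) = Module.finrank ℂ ↥(U ⊓ V p) := by
  apply le_antisymm
  · have h1 := rank_le hL hπ hU hU' hc ho (p := w - p) (Nat.sub_le _ _)
    rwa [Nat.sub_sub_self hp] at h1
  · exact rank_le hL hπ hU hU' hc ho hp

/-- the products are independent modulo `g ⊔ F0` -/
theorem indep_main (wed : WedStmt) (hL : HE w Ψ V g) (hπ : Pr V w π) (hU : Stab g U) (hU' : Stab g U')
    (hc : IsCompl U U') (ho : ∀ x ∈ U, ∀ y ∈ U', bf Ψ x y = 0) {I J : Type} [Fintype I]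
    [Fintype J] {e : I → d → ℂ} {e' : J → d → ℂ} {lev : I → ℕ} {lev' : J → ℕ}
    (he : LinearIndependent ℂ e) (he' : LinearIndependent ℂ e') (hm : ∀ a, e a ∈ U)
    (hml : ∀ a, e a ∈ V (lev a)) (hm' : ∀ b, e' b ∈ U') (hml' : ∀ b, e' b ∈ V (lev' b))
    (c : I → J → ℂ) (hc0 : ∀ a b, ¬ (lev a + lev' b < w) → c a b = 0)
    (hM : ∑ a, ∑ b, c a b • wd Ψ (e a) (e' b) ∈ g ⊔ F0 V) (a : I) (b : J) : c a b = 0 := by
  obtain ⟨X, hX, A, hA, hXA⟩ := Submodule.mem_sup.1 hM
  obtain ⟨z, hz⟩ : ∃ z : J → d → ℂ, ∀ b, z b = ∑ a, -(c a b) • e a := ⟨_, fun _ => rfl⟩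
  have hMv : ∀ v ∈ U, (∑ a, ∑ b, c a b • wd Ψ (e a) (e' b)) *ᵥ v =
      ∑ b, bf Ψ (z b) v • e' b := by
    intro v hv
    rw [Matrix.sum_mulVec]
    have h1 : ∀ a, (∑ b, c a b • wd Ψ (e a) (e' b)) *ᵥ v =
        ∑ b, (-(c a b) * bf Ψ (e a) v) • e' b := by
      intro a
      rw [Matrix.sum_mulVec]
      refine Finset.sum_congr rfl fun b _ => ?_
      rw [Matrix.smul_mulVec, wd_mulVec wed hL.symm, bf_symm wed hL.symm (e' b) v,
        ho v hv _ (hm' b), zero_smul, zero_sub, smul_neg, smul_smul, neg_mul, neg_smul]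
    simp only [h1]
    rw [Finset.sum_comm]
    refine Finset.sum_congr rfl fun b _ => ?_
    rw [← Finset.sum_smul, hz b, map_sum, LinearMap.sum_apply]
    simp only [map_smul, LinearMap.smul_apply, smul_eq_mul]
  have hzU : ∀ b, z b ∈ U := by
    intro b
    rw [hz b]
    exact U.sum_mem fun a _ => U.smul_mem _ (hm a)
  have key : ∀ b p, p ≤ w → p + lev' b < w → ∀ v ∈ U, v ∈ V (w - p) → bf Ψ (z b) v = 0 := by
    intro b p hp hlt v hv hv'
    have h1 : π (lev' b) ((∑ a, ∑ b, c a b • wd Ψ (e a) (e' b)) *ᵥ v) =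
        π (lev' b) (X *ᵥ v) := by
      rw [← hXA, Matrix.add_mulVec, map_add]
      have h2 : A *ᵥ v ∈ Fil V (w - p) := by
        refine hA (w - p) v ?_
        exact (le_iSup₂_of_le (f := fun p' (_ : p' ∈ Set.Ici (w - p)) => V p') (w - p)
          (Set.mem_Ici.2 le_rfl) le_rfl) hv'
      have h3 : Fil V (w - p) ≤ LinearMap.ker (π (lev' b)) := by
        refine iSup₂_le fun p' hp' x hx => ?_
        rw [Set.mem_Ici] at hp'
        exact hπ.ne _ p' (by omega) x hx
      rw [LinearMap.mem_ker.1 (h3 h2), add_zero]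
    have h2 : π (lev' b) (X *ᵥ v) ∈ U := stab_proj hL hπ hU _ (hU X hX v hv) _
    have h3 : π (lev' b) ((∑ a, ∑ b, c a b • wd Ψ (e a) (e' b)) *ᵥ v) =
        ∑ b', (if lev' b' = lev' b then bf Ψ (z b') v else 0) • e' b' := by
      rw [hMv v hv, map_sum]
      refine Finset.sum_congr rfl fun b' _ => ?_
      rw [map_smul]
      by_cases hb : lev' b' = lev' b
      · rw [if_pos hb, hπ.id _ _ (hb ▸ hml' b')]
      · rw [if_neg hb, hπ.ne _ _ hb _ (hml' b'), smul_zero, zero_smul]
    have h4 : (∑ b', (if lev' b' = lev' b then bf Ψ (z b') v else 0) • e' b') ∈ U' :=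
      U'.sum_mem fun b' _ => U'.smul_mem _ (hm' b')
    have h5 : (∑ b', (if lev' b' = lev' b then bf Ψ (z b') v else 0) • e' b') = 0 := by
      have h6 : (∑ b', (if lev' b' = lev' b then bf Ψ (z b') v else 0) • e' b') ∈ U ⊓ U' := by
        refine ⟨?_, h4⟩
        rw [← h3, h1]
        exact h2
      rw [hc.inf_eq_bot, Submodule.mem_bot] at h6
      exact h6
    have h6 := Fintype.linearIndependent_iff.1 he' _ h5 b
    rwa [if_pos rfl] at h6
  have hz0 : ∀ b, z b = 0 := by
    intro b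
    rw [← hπ.sum (z b)]
    refine Finset.sum_eq_zero fun p hp => ?_
    rw [Finset.mem_range] at hp
    by_cases hlt : p + lev' b < w
    · refine nondeg hL hπ hU hU' hc ho (by omega) (stab_proj hL hπ hU _ (hzU b) p) (hπ.mem _ _)
        fun v hv hv' => ?_
      rw [← bf_proj hL hπ _ (by omega) hv']
      exact key b p (by omega) hlt v hv hv'
    · rw [hz b, map_sum]
      refine Finset.sum_eq_zero fun a _ => ?_
      rw [map_smul]
      by_cases ha : lev a = p
      · rw [hc0 a b (by omega), neg_zero, zero_smul]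
      · rw [hπ.ne p (lev a) ha _ (hml a), smul_zero]
  have h1 := hz0 b
  rw [hz b] at h1
  exact neg_eq_zero.1 (Fintype.linearIndependent_iff.1 he _ h1 a)

end HE

/-- SPE -/
theorem spe (wed : WedStmt) (nue : NueStmt) : SpeStmt := by
  classical
  intro d _ _ w Ψ V g hL κ m hκ hdep U U' hU hU' hU0 hU0' hc ho
  obtain ⟨π, hπ⟩ := exists_pr hL
  have ho1 : ∀ x ∈ U, ∀ y ∈ U', bf Ψ x y = 0 := fun x hx y hy => by
    rw [bf_apply]
    exact ho x hx y hy
  have ho2 : ∀ x ∈ U', ∀ y ∈ U, bf Ψ x y = 0 := fun x hx y hy => by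
    rw [bf_symm wed hL.symm, ho1 y hy x hx]
  obtain ⟨I, _, e, lev, he, hm, hml, hF, hsp⟩ := exists_fam hπ (stab_proj hL hπ hU)
  obtain ⟨J, _, e', lev', he', hm', hml', hF', hsp'⟩ := exists_fam hπ (stab_proj hL hπ hU')
  -- the number of products
  have hcard : Fintype.card {t : I × J // lev t.1 + lev' t.2 < w} ≤ m := by
    by_contra hcon
    push Not at hcon
    obtain ⟨ε⟩ : Nonempty (Fin (m + 1) ↪ {t : I × J // lev t.1 + lev' t.2 < w}) :=
      Function.Embedding.nonempty_of_card_le (by rw [Fintype.card_fin]; exact hcon)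
    obtain ⟨l, hl, hl'⟩ := hdep (fun j => wd Ψ (e (ε j).1.1) (e' (ε j).1.2))
      (fun j => wd_mem wed hL.symm _ _)
    apply hl
    obtain ⟨c, hcdef⟩ : ∃ c : I → J → ℂ, ∀ a b, c a b = ∑ j, if (ε j).1 = (a, b) then l j else 0 :=
      ⟨_, fun _ _ => rfl⟩
    have hc0 : ∀ a b, ¬ (lev a + lev' b < w) → c a b = 0 := by
      intro a b hab
      rw [hcdef]
      refine Finset.sum_eq_zero fun j _ => ?_
      rw [if_neg]
      intro h
      apply hab
      have := (ε j).2
      rw [h] at this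
      exact this
    have hsum : ∑ a, ∑ b, c a b • wd Ψ (e a) (e' b) =
        ∑ j, l j • wd Ψ (e (ε j).1.1) (e' (ε j).1.2) := by
      have h1 : ∀ a b, c a b • wd Ψ (e a) (e' b) =
          ∑ j, if (ε j).1 = (a, b) then l j • wd Ψ (e a) (e' b) else 0 := by
        intro a b
        rw [hcdef, Finset.sum_smul]
        refine Finset.sum_congr rfl fun j _ => ?_
        split_ifs
        · rfl
        · rw [zero_smul]
      simp only [h1]
      rw [← Finset.sum_product', Finset.sum_comm]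
      refine Finset.sum_congr rfl fun j _ => ?_
      rw [Finset.sum_eq_single (ε j).1]
      · rw [if_pos rfl]
      · intro t _ ht
        rw [if_neg]
        intro h
        exact ht h.symm
      · intro h
        exact absurd (Finset.mem_univ _) h
    have hzero := indep_main wed hL hπ hU hU' hc ho1 he he' hm hml hm' hml' c hc0 (by
      rw [hsum]
      exact hl')
    funext j
    have h1 := hzero (ε j).1.1 (ε j).1.2
    rw [hcdef, Finset.sum_eq_single j] at h1
    · rwa [if_pos rfl] at h1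
    · intro i _ hi
      rw [if_neg]
      intro h
      exact hi (ε.injective (Subtype.ext h))
    · intro h
      exact absurd (Finset.mem_univ _) h
  have hcount : Fintype.card {t : I × J // lev t.1 + lev' t.2 < w} =
      ∑ p ∈ Finset.range (w + 1), ∑ q ∈ Finset.range (w + 1),
        if p + q < w then Module.finrank ℂ ↥(U ⊓ V p) * Module.finrank ℂ ↥(U' ⊓ V q) else 0 := by
    rw [Fintype.card_subtype, Finset.card_filter, ← Finset.univ_product_univ, Finset.sum_product]
    have h1 := hF fun p => ∑ b : J, if p + lev' b < w then 1 else 0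
    rw [h1]
    refine Finset.sum_congr rfl fun p _ => ?_
    have h2 := hF' fun q => if p + q < w then 1 else 0
    rw [h2, Finset.mul_sum]
    refine Finset.sum_congr rfl fun q _ => ?_
    split_ifs
    · ring
    · ring
  -- ranks
  have hx1 := hF fun _ => 1
  have hy1 := hF' fun _ => 1
  simp only [Finset.sum_const, Finset.card_univ, smul_eq_mul, mul_one] at hx1 hy1
  have hI : 1 ≤ Fintype.card I := by
    by_contra h
    have hI0 : IsEmpty I := Fintype.card_eq_zero_iff.1 (by omega)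
    apply hU0
    rw [eq_bot_iff]
    refine hsp.trans ?_
    rw [Set.range_eq_empty, Submodule.span_empty]
  have hJ : 1 ≤ Fintype.card J := by
    by_contra h
    have hJ0 : IsEmpty J := Fintype.card_eq_zero_iff.1 (by omega)
    apply hU0'
    rw [eq_bot_iff]
    refine hsp'.trans ?_
    rw [Set.range_eq_empty, Submodule.span_empty]
  have hd : Fintype.card d ≤ Fintype.card I + Fintype.card J := by
    have h1 : (⊤ : Submodule ℂ (d → ℂ)) ≤
        Submodule.span ℂ (Set.range (Sum.elim e e')) := by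
      rw [← hc.sup_eq_top, Set.Sum.elim_range, Submodule.span_union]
      exact sup_le_sup hsp hsp'
    have h2 := finrank_range_le_card (R := ℂ) (Sum.elim e e')
    rw [Set.finrank, top_le_iff.1 h1, finrank_top, Module.finrank_fintype_fun_eq_card,
      Fintype.card_sum] at h2
    exact h2
  have hκ' : ∀ p, Module.finrank ℂ ↥(U ⊓ V p) + Module.finrank ℂ ↥(U' ⊓ V p) ≤ κ := by
    intro p
    have h1 := Submodule.finrank_sup_add_finrank_inf_eq (U ⊓ V p) (U' ⊓ V p)
    have h2 : (U ⊓ V p) ⊓ (U' ⊓ V p) = ⊥ := by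
      rw [eq_bot_iff, ← hc.inf_eq_bot]
      exact inf_le_inf inf_le_left inf_le_left
    rw [h2, finrank_bot, add_zero] at h1
    rw [← h1]
    refine le_trans (Submodule.finrank_mono ?_) (hκ p)
    exact sup_le inf_le_right inf_le_right
  have hnum := numer nue w κ (fun p => Module.finrank ℂ ↥(U ⊓ V p))
    (fun p => Module.finrank ℂ ↥(U' ⊓ V p))
    (fun p hp => rank_eq hL hπ hU hU' hc ho1 hp)
    (fun p hp => rank_eq hL hπ hU' hU hc.symm ho2 hp) hκ'
    (by rw [← hx1]; exact hI) (by rw [← hy1]; exact hJ)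
  rw [← hcount, ← hx1, ← hy1] at hnum
  omega

end Pool.Agent.MTO.H85
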